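import Pool.Agent.Lib_MP_f22ace_co.HTwo

/-!
Negative answer to Q1 for the graphs of elementary moves on lattice polytopes in a cube.

* The first part: `inf_k h(Λ(2,k)) = 0`, even along arbitrarily large `k`.
* The second part: for every `d ≥ 2`, `Φ(Λ(d,k)) → 0` as `k → ∞`.
-/

set_option autoImplicit false

namespace Pool.Agent.Results.MP_f22ace_co.Q1

open Pool.Agent.MP_f22ace_co

theorem result :
    (∀ ε : ℝ, 0 < ε → ∀ K : ℕ, ∃ k : ℕ, K ≤ k ∧ ∃ S : Finset (LatticePolytope 2 k),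
      S.Nonempty ∧ 2 * S.card ≤ Fintype.card (LatticePolytope 2 k) ∧
      (cutSize (Lam 2 k) S : ℝ) ≤ ε * S.card) ∧
    (∀ d : ℕ, 2 ≤ d → ∀ ε : ℝ, 0 < ε → ∃ K : ℕ, ∀ k : ℕ, K ≤ k →
      ∃ S : Finset (LatticePolytope d k), 0 < vol (Lam d k) S ∧
      2 * vol (Lam d k) S ≤ vol (Lam d k) Finset.univ ∧
      (cutSize (Lam d k) S : ℝ) ≤ ε * vol (Lam d k) S) :=
  ⟨fun ε hε K => h_dim_two ε hε K, fun d hd ε hε => phi_fixed_dim d hd ε hε⟩

end Pool.Agent.Results.MP_f22ace_co.Q1
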