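import Pool.Agent.Lib_MP_f22ace_co.HOneFinal

/-!
Positive answer to Q2(a) for `k = 1`: the graphs `Λ(d,1)`, `d ≥ 2`, form an `h`-expander family, and
in fact `h(Λ(d,1)) → 1` as `d → ∞`.
-/

set_option autoImplicit false

namespace Pool.Agent.Results.MP_f22ace_co.Q2HSideOne

open Pool.Agent.MP_f22ace_co

theorem result :
    (∃ c : ℝ, 0 < c ∧ ∀ d : ℕ, ∀ S : Finset (LatticePolytope d 1), S.Nonempty →
      2 * S.card ≤ Fintype.card (LatticePolytope d 1) →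
      c * S.card ≤ (cutSize (Lam d 1) S : ℝ)) ∧
    (∀ ε : ℝ, 0 < ε → ∃ D : ℕ, ∀ d : ℕ, D ≤ d → ∀ S : Finset (LatticePolytope d 1), S.Nonempty →
      2 * S.card ≤ Fintype.card (LatticePolytope d 1) →
      (1 - ε) * S.card ≤ (cutSize (Lam d 1) S : ℝ)) ∧
    (∀ d : ℕ, 2 ≤ d → ∃ S : Finset (LatticePolytope d 1), S.Nonempty ∧
      2 * S.card ≤ Fintype.card (LatticePolytope d 1) ∧ cutSize (Lam d 1) S ≤ S.card) :=
  ⟨h_side_one_pos, fun ε hε => h_side_one_eventually ε hε, fun _ hd => h_side_one_le hd⟩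

end Pool.Agent.Results.MP_f22ace_co.Q2HSideOne
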