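import Pool.Agent.TrapF22.Final

/-!
Negative answer to Q2(a) for `k = 3`: `h(Λ(d,3)) ≤ (9/10)^d` for all large `d`, so the graphs
`Λ(d,3)`, `d ≥ 2`, are not an `h`-expander family.
-/

set_option autoImplicit false

namespace Pool.Agent.Results.MP_f22ace_co.Q2HSideThree

open Pool.Agent.MP_f22ace_co

theorem result : ∃ D : ℕ, ∀ d : ℕ, D ≤ d →
    ∃ S : Finset (LatticePolytope d 3), S.Nonempty ∧
      2 * S.card ≤ Fintype.card (LatticePolytope d 3) ∧
      (cutSize (Lam d 3) S : ℝ) ≤ (9 / 10) ^ d * S.card :=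
  Trap.h_side_three

end Pool.Agent.Results.MP_f22ace_co.Q2HSideThree
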