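import Pool.Agent.Lib_MP_f22ace_co.Phi

/-!
Negative answer to Q2(b): for every fixed `k ≥ 1`, `Φ(Λ(d,k)) → 0` as `d → ∞`.
-/

set_option autoImplicit false

namespace Pool.Agent.Results.MP_f22ace_co.Q2Phi

open Pool.Agent.MP_f22ace_co

theorem result (k : ℕ) (hk : 1 ≤ k) (ε : ℝ) (hε : 0 < ε) :
    ∃ D : ℕ, ∀ d : ℕ, D ≤ d → ∃ S : Finset (LatticePolytope d k), 0 < vol (Lam d k) S ∧
      2 * vol (Lam d k) S ≤ vol (Lam d k) Finset.univ ∧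
      (cutSize (Lam d k) S : ℝ) ≤ ε * vol (Lam d k) S :=
  phi_fixed_side k hk ε hε

end Pool.Agent.Results.MP_f22ace_co.Q2Phi
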